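import Pool.Agent.Helper35.HC.StC
import Pool.Agent.Helper28.PI.M_G0
import Pool.Agent.Helper98.PI2.M_GH

set_option autoImplicit false

/-!
Project HC, module GIT: mixed derivative of the inverse metric at the centre of a graph chart.
-/

namespace Pool.Agent.Helper28.HC

open Helper35.HC Helper35.HSF Helper35.MS Helper35.PI Helper35.PI2 Helper32.CL
open Helper2.PI Helper98.PI2 Helper28.PI
open scoped ContDiff Manifold Topology ENNReal BigOperators
open MeasureTheory Set Filter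

variable {n N : ℕ}

private theorem csub2 {m : ℕ} (c : ℝ) (h : Fin m → EE n × ℝ → ℝ) {z : EE n × ℝ}
    (hd : ∀ i, ContDiffAt ℝ ∞ (h i) z) (v w : EE n × ℝ) :
    DD v (DD w (fun z => c - ∑ i, h i z)) z = - ∑ i, DD v (DD w (h i)) z := by
  have h1 : DD w (fun z => c - ∑ i, h i z) =ᶠ[𝓝 z] (fun z' => 0 - ∑ i, DD w (h i) z') := by
    have : ∀ᶠ z' in 𝓝 z, ∀ i, DifferentiableAt ℝ (h i) z' :=
      eventually_all.2 fun i => evd (hd i)
    filter_upwards [this] with z' hz'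
    show fderiv ℝ (fun z => c - ∑ i, h i z) z' _ = _
    rw [fd_csub c h hz', zero_sub]
    rfl
  rw [DD_congr h1 v]
  show fderiv ℝ (fun z' => 0 - ∑ i, DD w (h i) z') z v = _
  rw [fd_csub 0 (fun i z' => DD w (h i) z') (fun i => dself (DD_inf (hd i) w))]
  rfl

private theorem mul2 {φ ψ : EE n × ℝ → ℝ} {z : EE n × ℝ} (hφ : ContDiffAt ℝ ∞ φ z)
    (hψ : ContDiffAt ℝ ∞ ψ z) (h0 : ψ z = 0) (h1 : fderiv ℝ ψ z = 0) (v w : EE n × ℝ) :
    DD v (DD w (fun z => φ z * ψ z)) z = φ z * DD v (DD w ψ) z := by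
  have e1 : DD w (fun z => φ z * ψ z) =ᶠ[𝓝 z] (fun z' => φ z' * DD w ψ z' + ψ z' * DD w φ z') := by
    filter_upwards [evd hφ, evd hψ] with z' a b
    exact fd_mul a b _
  rw [DD_congr e1 v]
  show fderiv ℝ (fun z' => φ z' * DD w ψ z' + ψ z' * DD w φ z') z v = _
  rw [fd_add ((dself hφ).fun_mul (dself (DD_inf hψ w)))
    ((dself hψ).fun_mul (dself (DD_inf hφ w))), fd_mul (dself hφ) (dself (DD_inf hψ w)),
    fd_mul (dself hψ) (dself (DD_inf hφ w)), h0]
  have e2 : DD w ψ z = 0 := by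
    show fderiv ℝ ψ z _ = 0
    rw [h1]; rfl
  rw [e2, h1]
  show φ z * DD v (DD w ψ) z + 0 * _ + (0 * _ + _ * 0) = _
  ring

private theorem inner2 {φ ψ : EE n × ℝ → EE N} {z : EE n × ℝ} (hφ : ContDiffAt ℝ ∞ φ z)
    (hψ : ContDiffAt ℝ ∞ ψ z) (h0 : φ z = 0) (h1 : ψ z = 0) (v w : EE n × ℝ) :
    DD v (DD w (fun z => (inner ℝ (φ z) (ψ z) : ℝ))) z
      = inner ℝ (DD v φ z) (DD w ψ z) + inner ℝ (DD w φ z) (DD v ψ z) := by
  have e1 : DD w (fun z => (inner ℝ (φ z) (ψ z) : ℝ))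
      =ᶠ[𝓝 z] (fun z' => (inner ℝ (φ z') (DD w ψ z') : ℝ) + inner ℝ (DD w φ z') (ψ z')) := by
    filter_upwards [evd hφ, evd hψ] with z' a b
    exact fd_inner a b _
  rw [DD_congr e1 v]
  show fderiv ℝ (fun z' => (inner ℝ (φ z') (DD w ψ z') : ℝ) + inner ℝ (DD w φ z') (ψ z')) z v = _
  rw [fd_add ((dself hφ).inner ℝ (dself (DD_inf hψ w)))
    ((dself (DD_inf hφ w)).inner ℝ (dself hψ)), fd_inner (dself hφ) (dself (DD_inf hψ w)),
    fd_inner (dself (DD_inf hφ w)) (dself hψ), h0, h1]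
  simp only [inner_zero_left, inner_zero_right, zero_add, add_zero]
  rfl

theorem hGIT (hG0 : StG0) (hG1 : StG1) (hG2 : StG2) (hSM : Helper35.PI.StSM) : StGIT := by
  intro n N x₀ L u t₀ hu A T hA hT i j k
  set z₀ : EE n × ℝ := (0, t₀) with hz₀
  let e : Fin n → EE n × ℝ := fun k => (ee k, 0)
  let τ : EE n × ℝ := (0, 1)
  have hs : ContDiffAt ℝ ∞ u z₀ := hu.smooth
  have g2 := hG2 n N x₀ L u t₀ hu
  have g2s := g2.self_of_nhds
  obtain ⟨symA, symT, -, -⟩ := hG1 n N x₀ L u t₀ hu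
  rw [← hT] at symT
  -- smoothness
  have s1 : ∀ v, ContDiffAt ℝ ∞ (DD v u) z₀ := fun v => DD_inf hs v
  have s2 : ∀ v w, ContDiffAt ℝ ∞ (DD v (DD w u)) z₀ := fun v w => DD_inf (s1 w) v
  -- the equation
  have hpde : DD τ u =ᶠ[𝓝 z₀] fun z => ∑ a, ∑ b, GIf x₀ L u a b z • DD (e a) (DD (e b) u) z := by
    filter_upwards [hu.pde] with z hz
    exact hz
  have hδ : ∀ (W : Fin n → Fin n → EE N), ∑ a, ∑ b, (if a = b then (1 : ℝ) else 0) • W a b
      = ∑ a, W a a := by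
    intro W
    refine Finset.sum_congr rfl fun a _ => ?_
    rw [Finset.sum_eq_single a]
    · simp
    · intro b _ hb
      rw [if_neg (Ne.symm hb), zero_smul]
    · intro h
      exact absurd (Finset.mem_univ a) h
  have v1 : ∀ m, DD (e m) (DD τ u) z₀ = et T m := by
    intro m
    rw [DD_congr hpde (e m)]
    have d1 : ∀ a b : Fin n, DifferentiableAt ℝ (GIf x₀ L u a b) z₀ := fun a b =>
      diff_of (hG0 n N x₀ L u t₀ hu a b).1
    have d2 : ∀ a b : Fin n, DifferentiableAt ℝ (DD (e a) (DD (e b) u)) z₀ := fun a b =>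
      diff_of (s2 _ _)
    rw [DD_sum Finset.univ (fun a z => ∑ b, GIf x₀ L u a b z • DD (e a) (DD (e b) u) z)
      (fun a _ => DifferentiableAt.fun_sum fun b _ => (d1 a b).smul (d2 a b)) (e m)]
    have h1 : ∀ a : Fin n, DD (e m) (fun z => ∑ b, GIf x₀ L u a b z • DD (e a) (DD (e b) u) z) z₀
        = ∑ b, (if a = b then (1 : ℝ) else 0) • T m a b := by
      intro a
      rw [DD_sum Finset.univ (fun b z => GIf x₀ L u a b z • DD (e a) (DD (e b) u) z)
        (fun b _ => (d1 a b).smul (d2 a b)) (e m)]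
      refine Finset.sum_congr rfl fun b _ => ?_
      obtain ⟨-, q2, q3, -, -⟩ := hG0 n N x₀ L u t₀ hu a b
      rw [DD_smul (GIf x₀ L u a b) (DD (e a) (DD (e b) u)) (d1 a b) (d2 a b) (e m)]
      rw [show GIf x₀ L u a b z₀ = (if a = b then 1 else 0) from q2,
        show DD (e m) (GIf x₀ L u a b) z₀ = 0 from q3 m, zero_smul, add_zero, hT]
      rfl
    rw [Finset.sum_congr rfl fun a _ => h1 a, hδ (T m)]
    unfold et
    refine Finset.sum_congr rfl fun i _ => ?_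
    rw [symT.1 m i i, symT.2 i m i]
  -- mixed derivatives of `u_i`
  have hmix : ∀ m, DD τ (DD (e m) u) z₀ = et T m := by
    intro m
    rw [DD_comm (two_of hs) τ (e m)]
    exact v1 m
  -- the joint map
  have hf : ContDiffAt ℝ ∞ (fun z : EE n × ℝ => x₀ + L z.1 + u z) z₀ := by
    refine ContDiffAt.add (contDiffAt_const.add ?_) hu.smooth
    exact L.toContinuousLinearMap.contDiff.contDiffAt.comp z₀ contDiffAt_fst
  have hsm := hSM n N (fun z : EE n × ℝ => x₀ + L z.1 + u z) z₀ hf g2s.2.2.2.2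
  obtain ⟨-, -, -, -, hgc, hgi, -⟩ := hsm
  have hGc : ∀ i j, ContDiffAt ℝ ∞ (Gf x₀ L u i j) z₀ := hgc
  have hGI : ∀ i j, ContDiffAt ℝ ∞ (GIf x₀ L u i j) z₀ := hgi
  let a : Fin n → Fin n → EE n × ℝ → ℝ := fun i j z => inner ℝ (DD (e i) u z) (DD (e j) u z)
  have hG : ∀ᶠ z in 𝓝 z₀, ∀ i j, Gf x₀ L u i j z = (if i = j then 1 else 0) + a i j z := by
    filter_upwards [g2] with z hz
    exact hz.2.2.1
  have hac : ∀ i j, ContDiffAt ℝ ∞ (a i j) z₀ := fun i j => (s1 (e i)).inner ℝ (s1 (e j))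
  have hu0 : ∀ i, DD (e i) u z₀ = 0 := hu.du0
  have ha0 : ∀ i j, a i j z₀ = 0 := by
    intro i j
    show inner ℝ (DD (e i) u z₀) (DD (e j) u z₀) = (0 : ℝ)
    rw [hu0 i, inner_zero_left]
  have haf : ∀ i j, fderiv ℝ (a i j) z₀ = 0 :=
    fun i j => (inner_jets (s1 (e i)) (s1 (e j)) (hu0 i) (hu0 j)).1
  have haj : ∀ i j, DD (e k) (DD τ (a i j)) z₀
      = inner ℝ (jgg u z₀ k i) (et T j) + inner ℝ (et T i) (jgg u z₀ k j) := by
    intro i j
    have h1 := inner2 (s1 (e i)) (s1 (e j)) (hu0 i) (hu0 j) (e k) τ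
    rw [hmix i, hmix j] at h1
    exact h1
  have hG1' : gram (grf x₀ L u z₀.2) z₀.1 = 1 := by
    ext p q
    have := hG.self_of_nhds p q
    rw [ha0, add_zero] at this
    rw [Matrix.one_apply]
    exact this
  have hdet : ∀ᶠ z in 𝓝 z₀, (gram (grf x₀ L u z.2) z.1).det ≠ 0 := by
    have hcont : ContinuousAt (fun z : EE n × ℝ => (gram (grf x₀ L u z.2) z.1).det) z₀ := by
      have h1 : ContinuousAt (fun z : EE n × ℝ => gram (grf x₀ L u z.2) z.1) z₀ := by
        refine continuousAt_pi.2 fun p => continuousAt_pi.2 fun q => ?_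
        exact (hGc p q).continuousAt
      exact (continuous_id.matrix_det).continuousAt.comp h1
    refine hcont.eventually_ne ?_
    rw [hG1', Matrix.det_one]
    exact one_ne_zero
  have hinv : GIf x₀ L u i j =ᶠ[𝓝 z₀]
      (fun z => (if i = j then (1 : ℝ) else 0) - ∑ m, GIf x₀ L u i m z * a m j z) := by
    filter_upwards [hG, hdet] with z hz hd
    have h1 : (gram (grf x₀ L u z.2) z.1)⁻¹ * gram (grf x₀ L u z.2) z.1 = 1 :=
      Matrix.nonsing_inv_mul _ (isUnit_iff_ne_zero.2 hd)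
    have h2 := congrFun (congrFun h1 i) j
    rw [Matrix.mul_apply, Matrix.one_apply] at h2
    have h3 : ∀ m, (gram (grf x₀ L u z.2) z.1)⁻¹ i m * gram (grf x₀ L u z.2) z.1 m j
        = (if m = j then GIf x₀ L u i m z else 0) + GIf x₀ L u i m z * a m j z := by
      intro m
      have := hz m j
      have e : gram (grf x₀ L u z.2) z.1 m j = (if m = j then 1 else 0) + a m j z := this
      rw [e]
      show GIf x₀ L u i m z * _ = _
      split_ifs <;> ring
    rw [Finset.sum_congr rfl fun m _ => h3 m, Finset.sum_add_distrib] at h2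
    rw [Finset.sum_ite_eq' Finset.univ j, if_pos (Finset.mem_univ j)] at h2
    rw [← h2]
    ring
  have hGI0 : ∀ i j, GIf x₀ L u i j z₀ = if i = j then 1 else 0 := by
    intro i j
    show (gram (grf x₀ L u z₀.2) z₀.1)⁻¹ i j = _
    rw [hG1', inv_one, Matrix.one_apply]
  have hmc : ∀ m, ContDiffAt ℝ ∞ (fun z => GIf x₀ L u i m z * a m j z) z₀ :=
    fun m => (hGI i m).mul (hac m j)
  show DD (e k) (DD τ (GIf x₀ L u i j)) z₀ = _
  rw [DD_congr (DD_ev hinv τ) (e k), csub2 _ _ hmc (e k) τ]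
  congr 1
  rw [Finset.sum_congr rfl fun m _ => mul2 (hGI i m) (hac m j) (ha0 m j) (haf m j) (e k) τ]
  simp only [hGI0, ite_mul, one_mul, zero_mul]
  rw [Finset.sum_ite_eq Finset.univ i, if_pos (Finset.mem_univ i), haj i j, hA]

end Pool.Agent.Helper28.HC
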