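import Mathlib
import Pool.Agent.Helper35.HC.StG
import Pool.Agent.Helper42.HSF.M_PIH

/-!
Project HC (MP_925021_gt), module P3H: the pinching for a short time.
-/

set_option autoImplicit false

namespace Helper28.HC

open Helper35.HC Helper35.HSF Helper35.MS Helper35.PI Helper35.PI2 Helper32.CL Helper42.HSF
open scoped ContDiff Manifold Topology BigOperators
open MeasureTheory Set Filter

section Abs

variable {X : Type} [TopologicalSpace X] {n : ℕ}

private theorem abs3 {c : ℝ} (hc0 : 0 < c) {S : Set X} {x₀ : X} (hx₀ : x₀ ∈ S)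
    {P : X → EE n → ℝ} {R : X → EE n → EE n → ℝ}
    (hcP : ContinuousOn (fun p : X × EE n => P p.1 p.2) (S ×ˢ univ))
    (hcR : ∀ u : EE n, ContinuousOn (fun p : X × EE n => R p.1 p.2 u) (S ×ˢ univ))
    (hP0 : ∀ x w, 0 ≤ P x w)
    (homP : ∀ x (r : ℝ) w, P x (r • w) = r ^ 2 * P x w)
    (homR : ∀ x (r : ℝ) w u, R x (r • w) (r ^ 2 • u) = r ^ 2 * R x w u)
    (hPpos : ∀ w : EE n, w ≠ 0 → 0 < P x₀ w)
    (hlt : ∀ w : EE n, P x₀ w = 1 → ∃ u, R x₀ w u < c) :
    ∃ τ : ℝ, 0 < τ ∧ τ < c ∧ ∀ᶠ x in 𝓝 x₀, x ∈ S → ∀ w, P x w = 1 → ∃ u, R x w u < τ := by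
  have hsc : ∀ x (r : ℝ) w, r ≠ 0 → ∀ u, R x (r • w) u = r ^ 2 * R x w ((r ^ 2)⁻¹ • u) := by
    intro x r w hr u
    rw [← homR, smul_smul, mul_inv_cancel₀ (pow_ne_zero 2 hr), one_smul]
  have hlt' : ∀ w : EE n, w ≠ 0 → ∃ u, R x₀ w u < c * P x₀ w := by
    intro w hw
    have h1 := hPpos w hw
    obtain ⟨r, hr⟩ : ∃ r : ℝ, r = (Real.sqrt (P x₀ w))⁻¹ := ⟨_, rfl⟩
    have h2 : r ^ 2 * P x₀ w = 1 := by
      rw [hr, inv_pow, Real.sq_sqrt h1.le, inv_mul_cancel₀ h1.ne']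
    have hr0 : 0 < r := by
      rw [hr]
      exact inv_pos.2 (Real.sqrt_pos.2 h1)
    obtain ⟨u, hu⟩ := hlt (r • w) (by rw [homP, h2])
    refine ⟨(r ^ 2)⁻¹ • u, ?_⟩
    rw [hsc x₀ r w hr0.ne'] at hu
    have h4 : 0 < r ^ 2 := by positivity
    by_contra h5
    rw [not_lt] at h5
    have h6 := mul_le_mul_of_nonneg_left h5 h4.le
    have h7 : r ^ 2 * (c * P x₀ w) = c * (r ^ 2 * P x₀ w) := by ring
    rw [h7, h2, mul_one] at h6
    linarith
  have hne : ∀ w ∈ Metric.sphere (0 : EE n) 1, w ≠ 0 := by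
    intro w hw h
    rw [mem_sphere_zero_iff_norm, h, norm_zero] at hw
    exact zero_ne_one hw
  have key := (isCompact_sphere (0 : EE n) 1).induction_on
    (p := fun K : Set (EE n) => ∃ τ : ℝ, 0 < τ ∧ τ < c ∧ ∀ᶠ x in 𝓝 x₀, x ∈ S → ∀ w ∈ K,
      ∃ u, R x w u < τ * P x w)
    ⟨c / 2, by linarith, by linarith, Eventually.of_forall fun x _ w hw => absurd hw
      (notMem_empty w)⟩
    (fun K K' hK ⟨τ, h1, h2, h3⟩ => ⟨τ, h1, h2, h3.mono fun x hx hxS w hw =>
      hx hxS w (hK hw)⟩)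
    (fun K K' ⟨τ, h1, h2, h3⟩ ⟨τ', h1', h2', h3'⟩ => by
      refine ⟨max τ τ', lt_max_of_lt_left h1, max_lt h2 h2', ?_⟩
      filter_upwards [h3, h3'] with x hx hx' hxS w hw
      rcases hw with hw | hw
      · obtain ⟨u, hu⟩ := hx hxS w hw
        exact ⟨u, hu.trans_le (mul_le_mul_of_nonneg_right (le_max_left _ _) (hP0 x w))⟩
      · obtain ⟨u, hu⟩ := hx' hxS w hw
        exact ⟨u, hu.trans_le (mul_le_mul_of_nonneg_right (le_max_right _ _) (hP0 x w))⟩)
    (fun w hw => by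
      obtain ⟨u, hu⟩ := hlt' w (hne w hw)
      have hp := hPpos w (hne w hw)
      have hρ : R x₀ w u / P x₀ w < c := (div_lt_iff₀ hp).2 hu
      obtain ⟨τ, hτ⟩ : ∃ τ : ℝ, τ = (max (R x₀ w u / P x₀ w) 0 + c) / 2 := ⟨_, rfl⟩
      have hm : max (R x₀ w u / P x₀ w) 0 < c := max_lt hρ hc0
      have hm0 : 0 ≤ max (R x₀ w u / P x₀ w) 0 := le_max_right _ _
      have hm1 : R x₀ w u / P x₀ w ≤ max (R x₀ w u / P x₀ w) 0 := le_max_left _ _
      have hτ0 : 0 < τ := by rw [hτ]; linarith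
      have hτc : τ < c := by rw [hτ]; linarith
      have hτR : R x₀ w u < τ * P x₀ w := by
        rw [← div_lt_iff₀ hp, hτ]
        linarith
      have h1 : ((x₀, w) : X × EE n) ∈ S ×ˢ (univ : Set (EE n)) := ⟨hx₀, mem_univ _⟩
      have h2 : ContinuousWithinAt (fun p : X × EE n => τ * P p.1 p.2 - R p.1 p.2 u)
          (S ×ˢ univ) (x₀, w) :=
        ((hcP _ h1).const_mul τ).sub (hcR u _ h1)
      have h3 : 0 < τ * P x₀ w - R x₀ w u := sub_pos.2 hτR
      have h4 := h2.eventually (lt_mem_nhds h3)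
      rw [eventually_nhdsWithin_iff, nhds_prod_eq, eventually_prod_iff] at h4
      obtain ⟨pa, hpa, pb, hpb, hab⟩ := h4
      refine ⟨{w' | pb w'}, mem_nhdsWithin_of_mem_nhds hpb, τ, hτ0, hτc, ?_⟩
      filter_upwards [hpa] with x hx hxS w' hw'
      refine ⟨u, ?_⟩
      have := hab hx hw' ⟨hxS, mem_univ _⟩
      simp only at this
      linarith)
  obtain ⟨τ, hτ0, hτc, hall⟩ := key
  refine ⟨τ, hτ0, hτc, ?_⟩
  filter_upwards [hall] with x hx hxS w hw
  have hwne : w ≠ 0 := by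
    intro h
    have h1 := homP x 0 w
    rw [zero_smul, h] at h1
    rw [h] at hw
    rw [hw] at h1
    norm_num at h1
  have hwn : 0 < ‖w‖ := norm_pos_iff.2 hwne
  have hS : ‖w‖⁻¹ • w ∈ Metric.sphere (0 : EE n) 1 := by
    rw [mem_sphere_zero_iff_norm, norm_smul, norm_inv, norm_norm, inv_mul_cancel₀ hwn.ne']
  obtain ⟨u, hu⟩ := hx hxS _ hS
  refine ⟨(‖w‖⁻¹ ^ 2)⁻¹ • u, ?_⟩
  rw [hsc x _ w (inv_ne_zero hwn.ne'), homP, hw, mul_one] at hu
  have h2 : 0 < ‖w‖⁻¹ ^ 2 := by positivity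
  by_contra h3
  rw [not_lt] at h3
  have h4 := mul_le_mul_of_nonneg_left h3 h2.le
  linarith

end Abs

section Geo

variable {n N : ℕ} {M : Type} [TopologicalSpace M] [ChartedSpace (EE n) M]
  {I : Set ℝ} {F : M → ℝ → EE N}

private theorem loc_center (F : M → ℝ → EE N) (q : M) (t : ℝ) :
    loc (n := n) F q t (chartAt (EE n) q q) = F q t := by
  unfold loc
  rw [(chartAt (EE n) q).left_inv (mem_chart_source _ q)]

private theorem gnN (F : M → ℝ → EE N) (q : M) (t : ℝ) (w : EE n) :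
    gn F q t (fun i => w i) = ‖fderiv ℝ (loc (n := n) F q t) (chartAt (EE n) q q) w‖ ^ 2 := by
  unfold gn tv
  conv_rhs => rw [vec_sum w, map_sum]
  simp only [map_smul]
  rfl

private theorem fd_span (F : M → ℝ → EE N) (q : M) (t : ℝ) (w : EE n) :
    fderiv ℝ (loc (n := n) F q t) (chartAt (EE n) q q) w ∈
      Submodule.span ℝ (range fun i => dv1 (loc (n := n) F q t) (chartAt (EE n) q q) i) := by
  rw [vec_sum w, map_sum]
  refine Submodule.sum_mem _ fun i _ => ?_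
  rw [map_smul]
  exact Submodule.smul_mem _ _ (Submodule.subset_span ⟨i, rfl⟩)

private theorem span_fd (F : M → ℝ → EE N) (q : M) (t : ℝ) {z : EE N}
    (hz : z ∈ Submodule.span ℝ
      (range fun i => dv1 (loc (n := n) F q t) (chartAt (EE n) q q) i)) :
    ∃ u : EE n, fderiv ℝ (loc (n := n) F q t) (chartAt (EE n) q q) u = z := by
  have h1 : Submodule.span ℝ
      (range fun i => dv1 (loc (n := n) F q t) (chartAt (EE n) q q) i) ≤
      LinearMap.range (fderiv ℝ (loc (n := n) F q t) (chartAt (EE n) q q)).toLinearMap := by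
    rw [Submodule.span_le]
    rintro _ ⟨i, rfl⟩
    exact ⟨ee i, rfl⟩
  exact h1 hz

private theorem pinch_gn (hp : Pinch3 n F 0) (q : M) (c : Fin n → ℝ) (hc : gn F q 0 c = 1) :
    ‖An F q 0 c + F q 0‖ ^ 2 < 1 / 3 := by
  have hg : ∑ i, ∑ j, gM (n := n) F q 0 i j * (c i * c j) = gn F q 0 c := by
    unfold gn tv gM gram
    rw [← real_inner_self_eq_norm_sq, sum_inner]
    refine Finset.sum_congr rfl fun i _ => ?_
    rw [inner_sum]
    refine Finset.sum_congr rfl fun j _ => ?_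
    rw [inner_smul_left, inner_smul_right, Matrix.of_apply]
    simp only [conj_trivial]
    ring
  have h1 := hp q c (by rw [hg, hc])
  have h2 : ∑ i, ∑ j, (c i * c j) • hM (n := n) F q 0 i j = An F q 0 c + F q 0 := by
    have h3 : ∀ i j, (c i * c j) • hM (n := n) F q 0 i j =
        (c i * c j) • sff (loc (n := n) F q 0) (chartAt (EE n) q q) i j
          + (gM (n := n) F q 0 i j * (c i * c j)) • F q 0 := by
      intro i j
      unfold hM sfs
      rw [loc_center, smul_add, smul_smul, mul_comm (gM (n := n) F q 0 i j)]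
      rfl
    simp only [h3, Finset.sum_add_distrib, ← Finset.sum_smul]
    rw [hg, hc, one_smul]
    rfl
  rwa [h2] at h1

variable [IsManifold (𝓡 n) ∞ M]

private theorem F_perp (hF : SMCF n I F) (q : M) {t : ℝ} (ht : t ∈ I) (i : Fin n) :
    (inner ℝ (F q t) (dv1 (loc (n := n) F q t) (chartAt (EE n) q q) i) : ℝ) = 0 := by
  have hd : ContDiffAt ℝ ∞ (loc (n := n) F q t) (chartAt (EE n) q q) :=
    slice_smooth hF.smooth q ht ((chartAt (EE n) q).map_source (mem_chart_source (EE n) q))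
  have hdd := hd.differentiableAt (by simp : (∞ : WithTop ℕ∞) ≠ 0)
  have h1 : (fun y => (inner ℝ (loc (n := n) F q t y) (loc (n := n) F q t y) : ℝ))
      = fun _ => (1 : ℝ) := by
    funext y
    rw [real_inner_self_eq_norm_sq]
    unfold loc
    rw [hF.sph _ t ht]
    norm_num
  have h2 := fderiv_inner_apply ℝ hdd hdd (ee i)
  rw [h1] at h2
  have h5 : fderiv ℝ (fun _ : EE n => (1 : ℝ)) (chartAt (EE n) q q) = 0 :=
    (hasFDerivAt_const _ _).fderiv
  rw [h5, zero_apply] at h2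
  rw [loc_center] at h2
  rw [real_inner_comm] at h2
  have h3 : (inner ℝ (F q t) (dv1 (loc (n := n) F q t) (chartAt (EE n) q q) i) : ℝ)
    = inner ℝ (F q t) (fderiv ℝ (loc (n := n) F q t) (chartAt (EE n) q q) (ee i)) := rfl
  have h4 := real_inner_comm (F q t)
    (fderiv ℝ (loc (n := n) F q t) (chartAt (EE n) q q) (ee i))
  rw [h3]
  linarith

private theorem An_facts (hNR : StNR) (hF : SMCF n I F) (q : M) {t : ℝ} (ht : t ∈ I)
    (v : EE n) :
    fderiv ℝ (fderiv ℝ (loc (n := n) F q t)) (chartAt (EE n) q q) v v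
        - An F q t (fun i => v i) ∈
      Submodule.span ℝ (range fun i => dv1 (loc (n := n) F q t) (chartAt (EE n) q q) i) ∧
    ∀ z ∈ Submodule.span ℝ (range fun i => dv1 (loc (n := n) F q t) (chartAt (EE n) q q) i),
      (inner ℝ (An F q t (fun i => v i) + F q t) z : ℝ) = 0 := by
  have hd : ContDiffAt ℝ ∞ (loc (n := n) F q t) (chartAt (EE n) q q) :=
    slice_smooth hF.smooth q ht ((chartAt (EE n) q).map_source (mem_chart_source (EE n) q))
  obtain ⟨n1, -, n3, -⟩ := hNR n N (loc (n := n) F q t) (chartAt (EE n) q q) (hF.imm q t ht)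
  constructor
  · rw [bil_sum]
    unfold An
    rw [← Finset.sum_sub_distrib]
    refine Submodule.sum_mem _ fun i _ => ?_
    rw [← Finset.sum_sub_distrib]
    refine Submodule.sum_mem _ fun j _ => ?_
    rw [← smul_sub]
    refine Submodule.smul_mem _ _ ?_
    rw [← dv2_D2 hd i j]
    exact n3 _
  · intro z hz
    have h1 : ∀ k, (inner ℝ (An F q t (fun i => v i) + F q t)
        (dv1 (loc (n := n) F q t) (chartAt (EE n) q q) k) : ℝ) = 0 := by
      intro k
      rw [inner_add_left, F_perp hF q ht k, add_zero]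
      unfold An
      rw [sum_inner]
      refine Finset.sum_eq_zero fun i _ => ?_
      rw [sum_inner]
      refine Finset.sum_eq_zero fun j _ => ?_
      rw [inner_smul_left]
      unfold sff
      rw [n1, mul_zero]
    induction hz using Submodule.span_induction with
    | mem x hx =>
      obtain ⟨k, rfl⟩ := hx
      exact h1 k
    | zero => exact inner_zero_right _
    | add x y _ _ hx hy => rw [inner_add_right, hx, hy, add_zero]
    | smul r x _ hx => rw [inner_smul_right, hx, mul_zero]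

/-- the data in the chart at `q₀` -/
private theorem key_chart (hNR : StNR) (hF : SMCF n I F) {q₀ q : M}
    (hq : q ∈ (chartAt (EE n) q₀).source) {t : ℝ} (ht : t ∈ I) (c : Fin n → ℝ) :
    ∃ w : EE n, gn F q t c = ‖pD (fch F q₀) (chartAt (EE n) q₀ q, t) w‖ ^ 2 ∧
      ∀ u : EE n, ‖An F q t c + F q t‖ ≤
        ‖pD (pD (fch F q₀)) (chartAt (EE n) q₀ q, t) w w + F q t
          - pD (fch F q₀) (chartAt (EE n) q₀ q, t) u‖ := by
  obtain ⟨v, hv⟩ : ∃ v : EE n, v = WithLp.toLp 2 c := ⟨_, rfl⟩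
  have hvc : (fun i => v i) = c := by rw [hv]
  have hqq := mem_chart_source (EE n) q
  have hd₀ : ContDiffAt ℝ ∞ (loc (n := n) F q₀ t) (tr (n := n) M q q₀ (chartAt (EE n) q q)) := by
    rw [tr_apply hqq]
    exact slice_smooth hF.smooth q₀ ht ((chartAt (EE n) q₀).map_source hq)
  have hd : ContDiffAt ℝ ∞ (loc (n := n) F q t) (tr (n := n) M q₀ q (chartAt (EE n) q₀ q)) := by
    rw [tr_apply hq]
    exact slice_smooth hF.smooth q ht ((chartAt (EE n) q).map_source hqq)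
  have hφ := tr_smooth (n := n) hqq hq
  have hψ := tr_smooth (n := n) hq hqq
  refine ⟨fderiv ℝ (tr (n := n) M q q₀) (chartAt (EE n) q q) v, ?_, ?_⟩
  · rw [← hvc, gnN, chain1 hφ hd₀ (loc_tr F t hqq hq), tr_apply hqq]
    rfl
  · intro u
    obtain ⟨a1, a2⟩ := An_facts hNR hF q ht v
    rw [hvc] at a1 a2
    have h0 : ∀ u' : EE n, fderiv ℝ (loc (n := n) F q₀ t) (chartAt (EE n) q₀ q) u' ∈
        Submodule.span ℝ (range fun i => dv1 (loc (n := n) F q t) (chartAt (EE n) q q) i) := by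
      intro u'
      rw [chain1 hψ hd (loc_tr F t hq hqq), tr_apply hq, ContinuousLinearMap.comp_apply]
      exact fd_span F q t _
    rw [chain2 hφ hd₀ (loc_tr F t hqq hq), tr_apply hqq] at a1
    obtain ⟨T, hT⟩ : ∃ T : EE N,
        T = pD (pD (fch F q₀)) (chartAt (EE n) q₀ q, t)
          (fderiv ℝ (tr (n := n) M q q₀) (chartAt (EE n) q q) v)
          (fderiv ℝ (tr (n := n) M q q₀) (chartAt (EE n) q q) v) + F q t
          - pD (fch F q₀) (chartAt (EE n) q₀ q, t) u - (An F q t c + F q t) := ⟨_, rfl⟩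
    have hTm : T ∈ Submodule.span ℝ
        (range fun i => dv1 (loc (n := n) F q t) (chartAt (EE n) q q) i) := by
      have h2 := Submodule.sub_mem _ (Submodule.sub_mem _ a1
        (h0 (fderiv ℝ (fderiv ℝ (tr (n := n) M q q₀)) (chartAt (EE n) q q) v v))) (h0 u)
      have h3 : T = fderiv ℝ (fderiv ℝ (loc (n := n) F q₀ t)) (chartAt (EE n) q₀ q)
              (fderiv ℝ (tr (n := n) M q q₀) (chartAt (EE n) q q) v)
              (fderiv ℝ (tr (n := n) M q q₀) (chartAt (EE n) q q) v)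
            + fderiv ℝ (loc (n := n) F q₀ t) (chartAt (EE n) q₀ q)
              (fderiv ℝ (fderiv ℝ (tr (n := n) M q q₀)) (chartAt (EE n) q q) v v)
            - An F q t c
            - fderiv ℝ (loc (n := n) F q₀ t) (chartAt (EE n) q₀ q)
              (fderiv ℝ (fderiv ℝ (tr (n := n) M q q₀)) (chartAt (EE n) q q) v v)
            - fderiv ℝ (loc (n := n) F q₀ t) (chartAt (EE n) q₀ q) u := by
        rw [hT]
        have e1 : pD (pD (fch F q₀)) (chartAt (EE n) q₀ q, t)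
            = fderiv ℝ (fderiv ℝ (loc (n := n) F q₀ t)) (chartAt (EE n) q₀ q) := rfl
        have e2 : pD (fch F q₀) (chartAt (EE n) q₀ q, t)
            = fderiv ℝ (loc (n := n) F q₀ t) (chartAt (EE n) q₀ q) := rfl
        rw [e1, e2]
        abel
      rw [h3]
      exact h2
    have h4 := a2 T hTm
    have h5 : pD (pD (fch F q₀)) (chartAt (EE n) q₀ q, t)
          (fderiv ℝ (tr (n := n) M q q₀) (chartAt (EE n) q q) v)
          (fderiv ℝ (tr (n := n) M q q₀) (chartAt (EE n) q q) v) + F q t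
          - pD (fch F q₀) (chartAt (EE n) q₀ q, t) u = (An F q t c + F q t) + T := by
      rw [hT]
      abel
    rw [h5]
    have h6 := norm_add_sq_real (An F q t c + F q t) T
    rw [h4, mul_zero, add_zero] at h6
    have h7 : ‖An F q t c + F q t‖ ^ 2 ≤ ‖An F q t c + F q t + T‖ ^ 2 := by
      rw [h6]
      have := sq_nonneg ‖T‖
      linarith
    exact (sq_le_sq₀ (norm_nonneg _) (norm_nonneg _)).1 h7

/-- the pinching near one point -/
private theorem pin_loc3 (hNR : StNR) (hI : UniqueDiffOn ℝ I) (h0 : (0 : ℝ) ∈ I)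
    (hF : SMCF n I F) (hp : Pinch3 n F 0) (q₀ : M) :
    ∃ W ∈ 𝓝 q₀, ∃ τ δ : ℝ, 0 < τ ∧ τ < 1 / 3 ∧ 0 < δ ∧ ∀ t ∈ I, 0 ≤ t → t < δ → ∀ q ∈ W,
      ∀ c : Fin n → ℝ, gn F q t c = 1 → ‖An F q t c + F q t‖ ^ 2 ≤ τ := by
  have hx : q₀ ∈ (chartAt (EE n) q₀).source := mem_chart_source (EE n) q₀
  have hf : ContDiffOn ℝ ∞ (fch F q₀) ((chartAt (EE n) q₀).target ×ˢ I) :=
    fch_smooth hF.smooth q₀
  have hD1 : ContDiffOn ℝ ∞ (pD (fch F q₀)) ((chartAt (EE n) q₀).target ×ˢ I) :=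
    pD_smooth (chartAt (EE n) q₀).open_target hI hf
  have hD2 : ContDiffOn ℝ ∞ (pD (pD (fch F q₀))) ((chartAt (EE n) q₀).target ×ˢ I) :=
    pD_smooth (chartAt (EE n) q₀).open_target hI hD1
  have hc1 : ContinuousOn (fun p : (M × ℝ) × EE n =>
      ((chartAt (EE n) q₀ p.1.1, p.1.2) : EE n × ℝ))
      (((chartAt (EE n) q₀).source ×ˢ I) ×ˢ univ) :=
    ((chartAt (EE n) q₀).continuousOn.comp (continuous_fst.comp continuous_fst).continuousOn
      (fun p hp => hp.1.1)).prodMk (continuous_snd.comp continuous_fst).continuousOn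
  have hE1 := hD1.continuousOn.comp hc1
      (fun p hp => ⟨(chartAt (EE n) q₀).map_source hp.1.1, hp.1.2⟩)
  have hE2 := hD2.continuousOn.comp hc1
      (fun p hp => ⟨(chartAt (EE n) q₀).map_source hp.1.1, hp.1.2⟩)
  have hcP : ContinuousOn (fun p : (M × ℝ) × EE n =>
      ‖pD (fch F q₀) (chartAt (EE n) q₀ p.1.1, p.1.2) p.2‖ ^ 2)
      (((chartAt (EE n) q₀).source ×ˢ I) ×ˢ univ) :=
    ((hE1.clm_apply continuous_snd.continuousOn).norm).pow 2
  have hcF : ContinuousOn (fun p : (M × ℝ) × EE n => F p.1.1 p.1.2)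
      (((chartAt (EE n) q₀).source ×ˢ I) ×ˢ univ) :=
    hF.smooth.continuousOn.comp continuous_fst.continuousOn (fun p hp => ⟨mem_univ _, hp.1.2⟩)
  have hcR : ∀ u : EE n, ContinuousOn (fun p : (M × ℝ) × EE n =>
      ‖pD (pD (fch F q₀)) (chartAt (EE n) q₀ p.1.1, p.1.2) p.2 p.2
        + ‖pD (fch F q₀) (chartAt (EE n) q₀ p.1.1, p.1.2) p.2‖ ^ 2 • F p.1.1 p.1.2
        - pD (fch F q₀) (chartAt (EE n) q₀ p.1.1, p.1.2) u‖)
      (((chartAt (EE n) q₀).source ×ˢ I) ×ˢ univ) := by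
    intro u
    exact ((((hE2.clm_apply continuous_snd.continuousOn).clm_apply
      continuous_snd.continuousOn).add (hcP.smul hcF)).sub
        (hE1.clm_apply continuousOn_const)).norm
  have hsq : 0 < Real.sqrt (1 / 3) := Real.sqrt_pos.2 (by norm_num)
  obtain ⟨τ, hτ0, hτ1, hall⟩ := abs3 (X := M × ℝ) (n := n) hsq
    (S := (chartAt (EE n) q₀).source ×ˢ I) (x₀ := (q₀, 0))
    (P := fun x w => ‖pD (fch F q₀) (chartAt (EE n) q₀ x.1, x.2) w‖ ^ 2)
    (R := fun x w u => ‖pD (pD (fch F q₀)) (chartAt (EE n) q₀ x.1, x.2) w w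
        + ‖pD (fch F q₀) (chartAt (EE n) q₀ x.1, x.2) w‖ ^ 2 • F x.1 x.2
        - pD (fch F q₀) (chartAt (EE n) q₀ x.1, x.2) u‖)
    ⟨hx, h0⟩ hcP hcR
    (fun x w => sq_nonneg _)
    (fun x r w => by
      simp only [map_smul, norm_smul, mul_pow, Real.norm_eq_abs, sq_abs])
    (fun x r w u => by
      have h1 : pD (pD (fch F q₀)) (chartAt (EE n) q₀ x.1, x.2) (r • w) (r • w)
        + ‖pD (fch F q₀) (chartAt (EE n) q₀ x.1, x.2) (r • w)‖ ^ 2 • F x.1 x.2
        - pD (fch F q₀) (chartAt (EE n) q₀ x.1, x.2) (r ^ 2 • u)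
        = r ^ 2 • (pD (pD (fch F q₀)) (chartAt (EE n) q₀ x.1, x.2) w w
        + ‖pD (fch F q₀) (chartAt (EE n) q₀ x.1, x.2) w‖ ^ 2 • F x.1 x.2
        - pD (fch F q₀) (chartAt (EE n) q₀ x.1, x.2) u) := by
        simp only [map_smul, smul_apply, norm_smul, mul_pow, Real.norm_eq_abs, sq_abs,
          smul_sub, smul_add, smul_smul]
        simp only [pow_two r]
      simp only [h1, norm_smul, Real.norm_eq_abs, abs_of_nonneg (sq_nonneg r)])
    (fun w hw => by
      have h1 : pD (fch F q₀) (chartAt (EE n) q₀ q₀, 0) w ≠ 0 := by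
        intro h2
        apply hw
        have h3 : ∑ i, w i • dv1 (loc (n := n) F q₀ 0) (chartAt (EE n) q₀ q₀) i = 0 := by
          rw [← h2]
          conv_rhs => rw [vec_sum w, map_sum]
          simp only [map_smul]
          rfl
        have h4 := Fintype.linearIndependent_iff.1 (hF.imm q₀ 0 h0) (fun i => w i) h3
        ext i
        simpa using h4 i
      have h5 : 0 < ‖pD (fch F q₀) (chartAt (EE n) q₀ q₀, 0) w‖ := norm_pos_iff.2 h1
      exact pow_pos h5 2)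
    (fun w hw => by
      have hw' : ‖fderiv ℝ (loc (n := n) F q₀ 0) (chartAt (EE n) q₀ q₀) w‖ ^ 2 = 1 := hw
      have h1 := pinch_gn hp q₀ (fun i => w i) (by rw [gnN]; exact hw')
      obtain ⟨a1, -⟩ := An_facts hNR hF q₀ h0 w
      obtain ⟨u, hu⟩ := span_fd F q₀ 0 a1
      refine ⟨u, ?_⟩
      have h2 : pD (pD (fch F q₀)) (chartAt (EE n) q₀ q₀, 0) w w
        + ‖pD (fch F q₀) (chartAt (EE n) q₀ q₀, 0) w‖ ^ 2 • F q₀ 0
        - pD (fch F q₀) (chartAt (EE n) q₀ q₀, 0) u = An F q₀ 0 (fun i => w i) + F q₀ 0 := by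
        have e1 : pD (pD (fch F q₀)) (chartAt (EE n) q₀ q₀, 0)
            = fderiv ℝ (fderiv ℝ (loc (n := n) F q₀ 0)) (chartAt (EE n) q₀ q₀) := rfl
        have e2 : pD (fch F q₀) (chartAt (EE n) q₀ q₀, 0)
            = fderiv ℝ (loc (n := n) F q₀ 0) (chartAt (EE n) q₀ q₀) := rfl
        rw [e1, e2, hu, hw', one_smul]
        abel
      show ‖_‖ < _
      rw [h2]
      exact Real.lt_sqrt_of_sq_lt h1)
  rw [nhds_prod_eq, eventually_prod_iff] at hall
  obtain ⟨pa, hpa, pb, hpb, hab⟩ := hall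
  obtain ⟨δ, hδ, hδb⟩ := Metric.eventually_nhds_iff.1 hpb
  refine ⟨{q | pa q} ∩ (chartAt (EE n) q₀).source,
    inter_mem hpa ((chartAt (EE n) q₀).open_source.mem_nhds hx), τ ^ 2, δ, by positivity, ?_,
      hδ, ?_⟩
  · have h1 : τ ^ 2 < Real.sqrt (1 / 3) ^ 2 := by
      exact pow_lt_pow_left₀ hτ1 hτ0.le two_ne_zero
    rwa [Real.sq_sqrt (by norm_num)] at h1
  rintro t ht ht0 htδ q ⟨hq1, hq2⟩ c hc
  obtain ⟨w, hw1, hw2⟩ := key_chart hNR hF hq2 ht c
  have hb : pb t := hδb (by rw [Real.dist_eq, sub_zero, abs_of_nonneg ht0]; exact htδ)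
  obtain ⟨u, hu⟩ := hab hq1 hb ⟨hq2, ht⟩ w (by rw [← hw1, hc])
  have h1 := hw2 u
  have h2 : ‖pD (fch F q₀) (chartAt (EE n) q₀ q, t) w‖ ^ 2 = 1 := by rw [← hw1, hc]
  have h3 : ‖pD (pD (fch F q₀)) (chartAt (EE n) q₀ q, t) w w
        + ‖pD (fch F q₀) (chartAt (EE n) q₀ q, t) w‖ ^ 2 • F q t
        - pD (fch F q₀) (chartAt (EE n) q₀ q, t) u‖ < τ := hu
  rw [h2, one_smul] at h3
  exact pow_le_pow_left₀ (norm_nonneg _) (h1.trans h3.le) 2

end Geo

/-- P3H -/
theorem hP3H (hNR : StNR) : StP3H := by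
  intro n N _ M _ _ _ _ _ I F hI h0 hF hp
  have key := (isCompact_univ (X := M)).induction_on
    (p := fun W : Set M => ∃ τ δ : ℝ, 0 < τ ∧ τ < 1 / 3 ∧ 0 < δ ∧ ∀ t ∈ I, 0 ≤ t → t < δ →
      ∀ q ∈ W, ∀ c : Fin n → ℝ, gn F q t c = 1 → ‖An F q t c + F q t‖ ^ 2 ≤ τ)
    ⟨1 / 4, 1, by norm_num, by norm_num, by norm_num, fun t _ _ _ q hq => absurd hq
      (notMem_empty q)⟩
    (fun W W' hW ⟨τ, δ, h1, h2, h3, h4⟩ => ⟨τ, δ, h1, h2, h3, fun t ht h5 h6 q hq =>
      h4 t ht h5 h6 q (hW hq)⟩)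
    (fun W W' ⟨τ, δ, h1, h2, h3, h4⟩ ⟨τ', δ', h1', h2', h3', h4'⟩ =>
      ⟨max τ τ', min δ δ', lt_max_of_lt_left h1, max_lt h2 h2', lt_min h3 h3',
        fun t ht h5 h6 q hq c hc => by
          rcases hq with hq | hq
          · exact (h4 t ht h5 (lt_of_lt_of_le h6 (min_le_left _ _)) q hq c hc).trans
              (le_max_left _ _)
          · exact (h4' t ht h5 (lt_of_lt_of_le h6 (min_le_right _ _)) q hq c hc).trans
              (le_max_right _ _)⟩)
    (fun q₀ _ => by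
      obtain ⟨W, hW, hW'⟩ := pin_loc3 hNR hI h0 hF hp q₀
      exact ⟨W, mem_nhdsWithin_of_mem_nhds hW, hW'⟩)
  obtain ⟨τ, δ, h1, h2, h3, h4⟩ := key
  exact ⟨τ, δ, h1, h2, h3, fun t ht h5 h6 q c hc => h4 t ht h5 h6 q (mem_univ q) c hc⟩

end Helper28.HC
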