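import Pool.Agent.Helper35.HC.StA
import Pool.Agent.Helper35.HC.ScD

set_option autoImplicit false

/-!
Project HC, module PIA: from the region to the pinching.
-/

namespace Pool.Agent.Helper28.HC

open Helper35.HC Helper35.HSF Helper35.MS Helper35.PI Helper35.PI2 Helper32.CL

private theorem ip0_self_nonneg {n : ℕ} (X : Fin n → Fin n → ℝ) : 0 ≤ ip0 X X := by
  unfold ip0
  refine Finset.sum_nonneg fun i _ => Finset.sum_nonneg fun j _ => ?_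
  exact mul_self_nonneg _

private theorem cone (n E M μ2 θ : ℝ) (hn : 1 < n) (hμ : 0 < μ2) (h1 : 2 * μ2 ≤ θ)
    (h2 : θ ≤ 2 * n * μ2) (hM1 : 10 ≤ M * (1 + 2 * E / n)) (hM2 : 8 + 2 * n ≤ M * (1 + 2 * E)) :
    8 * μ2 + θ ≤ M * (μ2 + E / n * θ) := by
  have hn0 : 0 < n := by linarith
  have g1 : 0 ≤ M * (μ2 + E / n * (2 * μ2)) - (8 * μ2 + 2 * μ2) := by
    have : M * (μ2 + E / n * (2 * μ2)) - (8 * μ2 + 2 * μ2) =
        (M * (1 + 2 * E / n) - 10) * μ2 := by ring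
    rw [this]
    exact mul_nonneg (by linarith) hμ.le
  have g2 : 0 ≤ M * (μ2 + E / n * (2 * n * μ2)) - (8 * μ2 + 2 * n * μ2) := by
    have : M * (μ2 + E / n * (2 * n * μ2)) - (8 * μ2 + 2 * n * μ2) =
        (M * (1 + 2 * E) - (8 + 2 * n)) * μ2 := by
      field_simp
    rw [this]
    exact mul_nonneg (by linarith) hμ.le
  have g3 : (2 * n * μ2 - 2 * μ2) * (M * (μ2 + E / n * θ) - (8 * μ2 + θ)) =
      (θ - 2 * μ2) * (M * (μ2 + E / n * (2 * n * μ2)) - (8 * μ2 + 2 * n * μ2)) +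
      (2 * n * μ2 - θ) * (M * (μ2 + E / n * (2 * μ2)) - (8 * μ2 + 2 * μ2)) := by ring
  have g4 : 0 ≤ (2 * n * μ2 - 2 * μ2) * (M * (μ2 + E / n * θ) - (8 * μ2 + θ)) := by
    rw [g3]
    exact add_nonneg (mul_nonneg (by linarith) g2) (mul_nonneg (by linarith) g1)
  have g5 : 0 < 2 * n * μ2 - 2 * μ2 := by nlinarith
  have g6 := nonneg_of_mul_nonneg_right g4 g5
  linarith

private theorem sc1 (n E θ μ2 r G x Y : ℝ) (hn : 3 ≤ n) (hE : 0 < E) (hr : 0 < r)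
    (hθμ : θ ≤ 2 * n * μ2) (hfG : μ2 + E / n * θ ≤ r * G) (hY : Y = n ^ 2 * (r * (1 + x)))
    (h5 : G / (1 + 2 * E) ≤ 9 / 10 * ((n - 1) / (n + 2)) * (1 + x)) :
    θ ≤ 9 / 10 * (2 * (n - 1) / (n * (n + 2))) * Y := by
  have hn0 : 0 < n := by linarith
  have h1 : θ * (1 + 2 * E) ≤ 2 * n * (μ2 + E / n * θ) := by
    have e : 2 * n * (μ2 + E / n * θ) = 2 * n * μ2 + 2 * E * θ := by
      field_simp
    rw [e]
    linarith
  have h2 : θ * (1 + 2 * E) ≤ 2 * n * (r * G) :=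
    le_trans h1 (mul_le_mul_of_nonneg_left hfG (by positivity))
  have h3 : θ ≤ 2 * n * r * (G / (1 + 2 * E)) := by
    have h4 : 0 < 1 + 2 * E := by positivity
    rw [show 2 * n * r * (G / (1 + 2 * E)) = (2 * n * (r * G)) / (1 + 2 * E) by ring,
      le_div_iff₀ h4]
    exact h2
  have h6 : 2 * n * r * (G / (1 + 2 * E)) ≤
      2 * n * r * (9 / 10 * ((n - 1) / (n + 2)) * (1 + x)) :=
    mul_le_mul_of_nonneg_left h5 (by positivity)
  have h7 : 9 / 10 * (2 * (n - 1) / (n * (n + 2))) * Y =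
      2 * n * r * (9 / 10 * ((n - 1) / (n + 2)) * (1 + x)) := by
    rw [hY]
    have : n + 2 ≠ 0 := by positivity
    field_simp
  rw [h7]
  exact le_trans h3 h6

private theorem sc2 (n δ δ₁ κ Y a m θ lhs : ℝ) (hn : 3 ≤ n) (hκ0 : 0 < κ) (hY : Y = n ^ 2 * κ)
    (ha : 0 ≤ a) (hδb : δ ≤ δ₁ / n ^ 2) (h1 : 8 * m + θ ≤ (n - δ₁) * κ)
    (hp : lhs ≤ (8 * m + θ - Y / n) * a) : lhs ≤ -(δ * Y * a) := by
  have hn0 : 0 < n := by linarith
  refine le_trans hp ?_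
  have h2 : Y / n = n * κ := by
    rw [hY]
    field_simp
  rw [h2]
  have h3 : (8 * m + θ - n * κ) * a ≤ (-(δ₁ * κ)) * a := by
    apply mul_le_mul_of_nonneg_right _ ha
    linarith
  have h4 : δ * Y ≤ δ₁ * κ := by
    rw [hY]
    have h5 : δ * n ^ 2 ≤ δ₁ := by
      rwa [le_div_iff₀ (by positivity)] at hδb
    calc δ * (n ^ 2 * κ) = (δ * n ^ 2) * κ := by ring
      _ ≤ δ₁ * κ := mul_le_mul_of_nonneg_right h5 hκ0.le
  have h6 : δ * Y * a ≤ δ₁ * κ * a := mul_le_mul_of_nonneg_right h4 ha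
  linarith

private theorem sc3 (n δ₁ M r l G x m θ : ℝ) (hr : 0 < r)
    (hfM : 8 * m + θ ≤ M * (r * (l * G))) (h4 : M * (l * G) ≤ (n - δ₁) * (1 + x)) :
    8 * m + θ ≤ (n - δ₁) * (r * (1 + x)) := by
  have h6 : r * (M * (l * G)) ≤ r * ((n - δ₁) * (1 + x)) := mul_le_mul_of_nonneg_left h4 hr.le
  calc 8 * m + θ ≤ M * (r * (l * G)) := hfM
    _ = r * (M * (l * G)) := by ring
    _ ≤ r * ((n - δ₁) * (1 + x)) := h6
    _ = (n - δ₁) * (r * (1 + x)) := by ring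

private theorem sc4 (n Y θ : ℝ) (hn : 3 ≤ n) (hY : 0 < Y)
    (hp1 : θ ≤ 9 / 10 * (2 * (n - 1) / (n * (n + 2))) * Y) : θ ≤ Y := by
  have hcoef1 : 2 * (n - 1) / (n * (n + 2)) ≤ 1 := by
    rw [div_le_one (by positivity)]
    nlinarith
  refine le_trans hp1 ?_
  have : 9 / 10 * (2 * (n - 1) / (n * (n + 2))) * Y ≤ 1 * Y := by
    apply mul_le_mul_of_nonneg_right _ hY.le
    linarith
  linarith

private theorem sc5 (n R X₀ r x Y : ℝ) (hn : 3 ≤ n) (hR : 0 < R) (hx0 : 0 ≤ x)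
    (hrR : r ≤ R) (hY : Y = n ^ 2 * (r * (1 + x))) (h : n ^ 2 * R * (1 + X₀) ≤ Y) : X₀ ≤ x := by
  have h1 : R * (1 + X₀) ≤ r * (1 + x) := by
    have : n ^ 2 * (R * (1 + X₀)) ≤ n ^ 2 * (r * (1 + x)) := by rw [← hY]; linarith
    exact le_of_mul_le_mul_left this (by positivity)
  have h2 : r * (1 + x) ≤ R * (1 + x) := mul_le_mul_of_nonneg_right hrR (by linarith)
  have h3 := le_of_mul_le_mul_left (le_trans h1 h2) hR
  linarith

private theorem sc6 (n δ Y θ : ℝ) (hn : 3 ≤ n) (hY : 0 < Y) (hδ : δ ≤ 1 / 10)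
    (hp1 : θ ≤ 9 / 10 * (2 * (n - 1) / (n * (n + 2))) * Y) :
    θ ≤ (1 - δ) * (2 * (n - 1) / (n * (n + 2))) * Y := by
  have hcoef0 : 0 ≤ 2 * (n - 1) / (n * (n + 2)) := by
    have : 0 ≤ n - 1 := by linarith
    positivity
  refine le_trans hp1 ?_
  apply mul_le_mul_of_nonneg_right _ hY.le
  apply mul_le_mul_of_nonneg_right _ hcoef0
  linarith

theorem hPIA (hPI1 : StPI1) (hPI2 : StPI2) (hPI3 : StPI3) (hMXE : StMXE) (hTRV : StTRV)
    (hSQB : StSQB) (hPXE : StPXE) : StPIA := by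
  intro n hn cK E D B c hK
  have hn3 : (3 : ℝ) ≤ n := by exact_mod_cast hn
  have hn0 : (0 : ℝ) < n := by linarith
  obtain ⟨hK0, hE0, hD0, hB0, hc0, hKE⟩ := hK.pos
  obtain ⟨ε, hε0, hε1, hP3⟩ := sP3 hn hK
  obtain ⟨δ₁, X₀, l₀, hδ0, hδ1, hX0, hl0, hs1, hs2⟩ := sP2 hn hK
  obtain ⟨δ₃, hδ30, hδ31, hPI3'⟩ := hPI3 n (n + 3) (by omega) ε hε0 hε1
  set M : ℝ := max (10 / (1 + 2 * E / n)) ((8 + 2 * n) / (1 + 2 * E)) with hM
  have hM1 : 10 ≤ M * (1 + 2 * E / n) := by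
    have h1 : 0 < 1 + 2 * E / n := by positivity
    have h2 : 10 / (1 + 2 * E / n) ≤ M := le_max_left _ _
    rwa [div_le_iff₀ h1] at h2
  have hM2 : 8 + 2 * n ≤ M * (1 + 2 * E) := by
    have h1 : 0 < 1 + 2 * E := by positivity
    have h2 : (8 + 2 * n) / (1 + 2 * E) ≤ M := le_max_right _ _
    rwa [div_le_iff₀ h1] at h2
  have hM0 : 0 ≤ M := by
    have h2 : 10 / (1 + 2 * E / n) ≤ M := le_max_left _ _
    have h3 : 0 ≤ 10 / (1 + 2 * E / n) := by positivity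
    linarith
  set δ : ℝ := min (1 / 10) (min (δ₁ / n ^ 2) δ₃) with hδ
  have hδpos : 0 < δ := by
    rw [hδ]
    exact lt_min (by norm_num) (lt_min (by positivity) hδ30)
  have hδa : δ ≤ 1 / 10 := min_le_left _ _
  have hδb : δ ≤ δ₁ / n ^ 2 := le_trans (min_le_right _ _) (min_le_left _ _)
  have hδc : δ ≤ δ₃ := le_trans (min_le_right _ _) (min_le_right _ _)
  refine ⟨δ, l₀, hδpos, by linarith, hl0, ?_⟩
  intro R hR
  refine ⟨n ^ 2 * R * (1 + X₀), ?_⟩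
  intro A r l L x₀ hA hr hx₀ hLx hAL hAx hlpos hl1 hreg
  obtain ⟨P, Q, hPQ, hmax⟩ := hMXE n (n + 3) (by omega) A
  obtain ⟨⟨K, b, ξ, η, sK, sb, hKB, hnorm, -⟩, hTR2⟩ :=
    hTRV n (by omega) A r L x₀ hA hr hx₀ hLx hAL hAx
  set μ : ℝ := ‖bilV A P Q‖ with hμ
  have hμ0 : 0 ≤ μ := norm_nonneg _
  have hmx : ∀ c d, OP c d → bil K c d ^ 2 + bil b c d ^ 2 ≤ μ ^ 2 := by
    intro c d hcd
    rw [← hnorm c d hcd]
    exact hmax c d hcd
  obtain ⟨-, hYY, hth, -, -, -, -⟩ := hSQB n (n + 3) (by omega) A K b r ξ η x₀ sK sb hKB _ rfl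
  set κ : ℝ := mt K ^ 2 + mt b ^ 2 + r with hκ
  have hκr : r ≤ κ := by
    have h1 := sq_nonneg (mt K)
    have h2 := sq_nonneg (mt b)
    linarith
  have hκ0 : 0 < κ := lt_of_lt_of_le hr hκr
  have hYYpos : 0 < YY A := by
    rw [hYY]
    positivity
  set x : ℝ := YY A / (n ^ 2 * r) - 1 with hx
  have hxκ : κ = r * (1 + x) := by
    rw [hx, hYY]
    field_simp
    ring
  have hx0 : 0 ≤ x := by
    have : r * 1 ≤ r * (1 + x) := by rw [← hxκ, mul_one]; exact hκr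
    have := le_of_mul_le_mul_left this hr
    linarith
  have hxe : x = (mt K ^ 2 + mt b ^ 2) / r := by
    rw [eq_div_iff hr.ne']
    have : κ = r * (1 + x) := hxκ
    rw [hκ] at this
    linarith
  have hG0 : 0 < Gx cK D B c x := Gx_pos hK hx0
  set G : ℝ := Gx cK D B c x with hG
  have hθ0 : 0 ≤ thA2 A := by
    rw [hth]
    exact add_nonneg (ip0_self_nonneg K) (ip0_self_nonneg b)
  obtain ⟨hal, hθμ, hpi1⟩ := hPI1 n (n + 3) (by omega) A K b r μ ξ η x₀ sK sb hKB hμ0 hmx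
  set θ : ℝ := thA2 A with hθ
  have hf : μ ^ 2 + E / n * θ < r * (l * G) := by
    have h1 := hreg P Q hPQ
    rw [div_lt_iff₀ hr] at h1
    linarith
  have hlG : l * G ≤ G := by
    have := mul_le_mul_of_nonneg_right hl1 hG0.le
    linarith
  have hfG : μ ^ 2 + E / n * θ ≤ r * G :=
    le_trans hf.le (mul_le_mul_of_nonneg_left hlG hr.le)
  -- P1
  have hYx : YY A = n ^ 2 * (r * (1 + x)) := by rw [hYY, ← hxκ]
  have hp1 : θ ≤ 9 / 10 * (2 * ((n : ℝ) - 1) / (n * (n + 2))) * YY A :=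
    sc1 n E θ (μ ^ 2) r G x (YY A) hn3 hE0 hr hθμ hfG hYx (sP1 hn hK x hx0)
  have hθYY : θ ≤ YY A := sc4 n (YY A) θ hn3 hYYpos hp1
  -- P3
  have hcv := hPI2 n (n + 3) hn A K b r μ E G x ε ξ η x₀ sK sb hKB hμ0 hmx hE0.le hε0.le hε1
    hxe hfG (hP3 x hx0)
  have hp3 := hPI3' A hA hYYpos hθYY hcv δ hδpos hδc
  -- P2
  have hfM : 8 * μ ^ 2 + θ ≤ M * (r * (l * G)) := by
    rcases hμ0.eq_or_lt with h0 | hpos
    · have h1 : θ ≤ 0 := by
        rw [← h0] at hθμ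
        simpa using hθμ
      have h2 : 0 ≤ M * (r * (l * G)) := by positivity
      rw [← h0]
      have : (8 : ℝ) * 0 ^ 2 + θ ≤ 0 := by linarith
      linarith
    · obtain ⟨K', b', ξ', η', hKB', hMXP'⟩ := hTR2 P Q μ hPQ hmax hpos rfl
      obtain ⟨-, -, -, -, hlow⟩ := hPXE n (by omega) K' b' P Q μ hMXP' _ rfl
      obtain ⟨-, -, hth', -, -, -, -⟩ :=
        hSQB n (n + 3) (by omega) A K' b' r ξ' η' x₀ hMXP'.sK hMXP'.sb hKB' _ rfl
      have h1 : 2 * μ ^ 2 ≤ θ := by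
        rw [hθ, hth']
        have := ip0_self_nonneg b'
        linarith
      have h2 := cone n E M (μ ^ 2) θ (by linarith) (by positivity) h1 hθμ hM1 hM2
      exact le_trans h2 (mul_le_mul_of_nonneg_left hf.le hM0)
  have core : ∀ κ₁ : ℝ, (κ₁ ≤ YY A → 8 * μ ^ 2 + θ ≤ (n - δ₁) * κ) → PinA n κ₁ δ A := by
    intro κ₁ hk
    refine ⟨sc6 n δ (YY A) θ hn3 hYYpos hδa hp1, hp3, fun hκ₁ => ?_⟩
    exact sc2 n δ δ₁ κ (YY A) (al2 A) (μ ^ 2) θ _ hn3 hκ0 hYY hal hδb (hk hκ₁) hpi1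
  refine ⟨fun hrR => core _ fun hκ₁ => ?_, fun hll κ₁ => core κ₁ fun _ => ?_⟩
  · have hXx : X₀ ≤ x := sc5 n R X₀ r x (YY A) hn3 hR hx0 hrR hYx hκ₁
    have h4 := hs1 x hXx
    rw [hxκ]
    refine sc3 n δ₁ M r l G x (μ ^ 2) θ hr hfM (le_trans ?_ h4)
    exact mul_le_mul_of_nonneg_left hlG hM0
  · rw [hxκ]
    exact sc3 n δ₁ M r l G x (μ ^ 2) θ hr hfM (hs2 x l hx0 hlpos.le hll)

end Pool.Agent.Helper28.HC
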